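import Pool.Agent.H251R5.PQ.T_COR
import Pool.Agent.H251R5.PQ.T_ENU
import Pool.Agent.H251R5.PQ.T_EV
import Pool.Agent.H251R5.PQ.T_FIL
import Pool.Agent.H251R5.PQ.T_FIND
import Pool.Agent.H251R5.PQ.T_GR
import Pool.Agent.H251R5.PQ.T_INV
import Pool.Agent.H251R5.PQ.T_JB
import Pool.Agent.H251R5.PQ.T_LEV
import Pool.Agent.H251R5.PQ.T_LG
import Pool.Agent.H251R5.PQ.T_NPQ
import Pool.Agent.H251R5.PQ.T_PAC
import Pool.Agent.H251R5.PQ.T_PAD
import Pool.Agent.H251R5.PQ.T_PBL
import Pool.Agent.H251R5.PQ.T_PEV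
import Pool.Agent.H251R5.PQ.T_PQL
import Pool.Agent.H251R5.PQ.T_PR
import Pool.Agent.H251R5.PQ.T_PRP
import Pool.Agent.H251R5.PQ.T_PTE
import Pool.Agent.H251R5.PQ.T_SPA
import Pool.Agent.H251R5.PQ.T_SZ
import Pool.Agent.H251R5.PQ.T_TRU
import Pool.Agent.H579R2.Spt.Par

/-!
# Polynomial-time lists of candidates for parallel `NP` queries give `P = NP` (assembled from the
tasks of helper251's team), and the application to sparse sets
-/

set_option autoImplicit false

namespace Pool.Agent.H579R6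

open Pool.Agent.NPC Pool.Agent.H251R5.PQ

theorem pINV : S_INV := t_INV t_GR t_LG t_SZ t_PR (t_PQL t_PRP)
theorem pJB : S_JB := t_JB t_EV
theorem pFIND : S_FIND := t_FIND t_EV t_TRU
theorem pSPA : S_SPA := t_SPA pJB t_TRU
theorem pLEV : S_LEV := t_LEV t_TRU pFIND pSPA t_GR
theorem pFIL : S_FIL := t_FIL pJB t_PR
theorem pCOR : S_COR := t_COR pINV pFIL pLEV pFIND t_PR
theorem pPAC : S_PAC := t_PAC pINV t_SZ (t_PTE t_PRP (t_PQL t_PRP)) (t_PBL t_PRP (t_PQL t_PRP)) t_PR
theorem pNPQ : S_NPQ := t_NPQ (t_PEV t_PRP)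

/-- If the vectors of answers of all `NP` sets have polynomial-time enumerators then `P = NP`. -/
theorem p_eq_np_of_enum (h : ∀ L : Set (List Bool), InNP L → ∃ E, EnumFor L E) :
    ∀ L : Set (List Bool), InNP L → InP L := by
  intro L hL
  obtain ⟨D, hD⟩ := t_PAD L hL
  obtain ⟨E, hE⟩ := h (lang (Qry D)) (pNPQ D)
  obtain ⟨u1, h1⟩ := pCOR D E hE
  obtain ⟨u2, h2⟩ := pPAC D E hE.1
  have h3 := h1 (max u1 u2) (le_max_left _ _)
  have h4 := h2 (max u1 u2) (le_max_right _ _)
  refine ⟨fun x => [acc D E (max u1 u2) x], polyTime_of_poly h4, fun x => ?_⟩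
  rw [hD, ← h3 x]
  simp

theorem poly_of_bits {r : List Bool → List (List Bool)}
    (h : PolyTime (fun x => bits (r x))) : Poly r := by
  have h1 : Poly (fun x => bits (r x)) := PIso.poly_iff.2 h
  have h2 : Poly (fun x => unbits (List (List Bool)) (bits (r x))) :=
    poly_unbits.comp h1
  exact (NPC.Poly.optGetD h2 (NPC.Poly.const [])).congr fun x => by
    simp only [unbits_bits, Option.getD_some]

/-- The enumerators from lists of candidates. -/
theorem enum_of_cands (L : Set (List Bool))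
    (h : ∀ Q : List Bool → List (List Bool), PolyTime (fun x => bits (Q x)) →
      ∃ G : List Bool → List (List Bool), PolyTime (fun x => bits (G x)) ∧
        ∀ x, answers L (Q x) ∈ G x) : ∃ E, EnumFor L E := by
  have h0 : Poly Pool.Agent.H579R2.Spt.dl := Pool.Agent.H579R2.Spt.dl_poly
  obtain ⟨G, hG, hG2⟩ := h Pool.Agent.H579R2.Spt.dl (PIso.poly_iff.1
    (Pool.Agent.H579R2.Spt.bits_poly.comp h0))
  refine ⟨fun qs => G (bits qs), (poly_of_bits hG).comp
    Pool.Agent.H579R2.Spt.bits_poly, fun qs => ?_⟩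
  have := hG2 (bits qs)
  rwa [Pool.Agent.H579R2.Spt.dl_bits] at this

open Pool.Agent.H579R2.Spt in
/-- **Sparse sets.** If an `NP`-hard set reduces to a sparse set by a threshold reduction of
polynomial weight and constant width then `P = NP`. -/
theorem p_eq_np_of_sparse (A S : Set (List Bool)) (hA : NPHard A) (hS : Sparse S) (d : ℕ → ℕ)
    (c : ℕ) (hd : ∃ q : Polynomial ℕ, ∀ n, d n ≤ q.eval n)
    (hred : ThresholdReduces A S d (fun _ => c)) : ∀ L : Set (List Bool), InNP L → InP L := by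
  refine p_eq_np_of_enum (fun L hL => enum_of_cands L (fun Q hQ => ?_))
  obtain ⟨G, hG, hG2⟩ := parallel_cands A S hA hS d c hd hred L hL Q hQ
  exact ⟨G, hG, fun x => hG2 x⟩

end Pool.Agent.H579R6
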