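import Pool.Agent.H579R6.PQMain

/-!
# Unbounded width

A threshold reduction of width `c` to a set `S` is a threshold reduction of width one to the set of
(codes of) small subsets of `S`, which is sparse if `census S (p n) ^ c n` is polynomially bounded
for all polynomials `p`.
-/

set_option autoImplicit false

namespace Pool.Agent.H579R6

open Pool.Agent.NPC Pool.Agent.H579R2.Spt

/-- The set of the codes of the small lists of short strings of `S`. -/
def Sub (S : Set (List Bool)) (c : ℕ → ℕ) (P : Polynomial ℕ) : Set (List Bool) :=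
  {y | ∃ (n : ℕ) (Q : List (List Bool)), y = bits (List.replicate n true, Q) ∧
    Q.length ≤ c n ∧ ∀ z ∈ Q, z ∈ S ∧ z.length ≤ P.eval n}

theorem sub_sparse (S : Set (List Bool)) (c : ℕ → ℕ) (P q : Polynomial ℕ)
    (hq : ∀ n, (census S (P.eval n) + 1) ^ c n ≤ q.eval n) : Sparse (Sub S c P) := by
  classical
  refine ⟨(Polynomial.X + 1) * q, fun N => ?_⟩
  have hfin := finite_strings (Sub S c P) N
  rw [census, Set.ncard_eq_toFinset_card _ hfin]
  set W := hfin.toFinset with hW
  set g : List Bool → List (List Bool) := fun y =>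
    ((unbits (List Bool × List (List Bool)) y).getD ([], [])).2 with hg
  have hg' : ∀ (n : ℕ) (Q : List (List Bool)), g (bits (List.replicate n true, Q)) = Q := by
    intro n Q
    rw [hg]
    simp only [unbits_bits, Option.getD_some]
  set Wn : ℕ → Finset (List Bool) := fun n => W.filter (fun y => ∃ Q : List (List Bool),
    y = bits (List.replicate n true, Q) ∧ Q.length ≤ c n ∧ ∀ z ∈ Q, z ∈ S ∧ z.length ≤ P.eval n)
    with hWn
  have h1 : W ⊆ (Finset.range (N + 1)).biUnion Wn := by
    intro y hy
    have hy' := hy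
    rw [hW, Set.Finite.mem_toFinset] at hy'
    obtain ⟨⟨n, Q, h2, h3, h4⟩, h5⟩ := hy'
    rw [Finset.mem_biUnion]
    refine ⟨n, ?_, ?_⟩
    · rw [Finset.mem_range]
      have h6 : y.length = sz (List.replicate n true, Q) := by rw [h2]; rfl
      rw [sz_pair] at h6
      have h7 := length_lt_sz (List.replicate n true)
      rw [List.length_replicate] at h7
      omega
    · rw [hWn]
      exact Finset.mem_filter.2 ⟨hy, Q, h2, h3, h4⟩
  have h2 : ∀ n ∈ Finset.range (N + 1), (Wn n).card ≤ q.eval N := by
    intro n hn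
    have h3 : (Wn n).card = ((Wn n).image g).card := by
      rw [Finset.card_image_of_injOn]
      intro y hy y' hy' h
      obtain ⟨_, Q, hQ, _⟩ := Finset.mem_filter.1 (Finset.mem_coe.1 hy)
      obtain ⟨_, Q', hQ', _⟩ := Finset.mem_filter.1 (Finset.mem_coe.1 hy')
      rw [hQ, hQ'] at h ⊢
      rw [hg', hg'] at h
      rw [h]
    rw [h3]
    have h4 : ((Wn n).image g).card ≤ (census S (P.eval n) + 1) ^ c n := by
      refine card_true_le S (c n) (P.eval n) _ ?_ ?_
      · intro Q hQ
        obtain ⟨y, hy, rfl⟩ := Finset.mem_image.1 hQ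
        obtain ⟨_, Q', hQ', h5, _⟩ := Finset.mem_filter.1 hy
        rw [hQ', hg']
        exact h5
      · intro Q hQ
        obtain ⟨y, hy, rfl⟩ := Finset.mem_image.1 hQ
        obtain ⟨_, Q', hQ', _, h5⟩ := Finset.mem_filter.1 hy
        rw [hQ', hg']
        exact h5
    refine h4.trans ((hq n).trans (eval_mono q ?_))
    rw [Finset.mem_range] at hn
    omega
  have h3 : W.card ≤ (N + 1) * q.eval N := by
    calc W.card ≤ ((Finset.range (N + 1)).biUnion Wn).card := Finset.card_le_card h1
      _ ≤ ∑ n ∈ Finset.range (N + 1), (Wn n).card := Finset.card_biUnion_le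
      _ ≤ ∑ _n ∈ Finset.range (N + 1), q.eval N := Finset.sum_le_sum h2
      _ = (N + 1) * q.eval N := by simp
  refine h3.trans (le_of_eq ?_)
  simp only [Polynomial.eval_add, Polynomial.eval_mul, Polynomial.eval_X, Polynomial.eval_one]

theorem value_sub (S : Set (List Bool)) (c : ℕ → ℕ) (P : Polynomial ℕ) (n : ℕ)
    (m : List (ℤ × List (List Bool)))
    (h : ∀ t ∈ m, t.2.length ≤ c n ∧ ∀ z ∈ t.2, z.length ≤ P.eval n) :
    value (Sub S c P) (m.map (fun t => (t.1, [bits (List.replicate n true, t.2)]))) =
      value S m := by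
  unfold value
  rw [List.map_map]
  congr 1
  refine List.map_congr_left fun t ht => ?_
  have h1 : (∀ y ∈ [bits (List.replicate n true, t.2)], y ∈ Sub S c P) ↔ ∀ y ∈ t.2, y ∈ S := by
    rw [List.forall_mem_singleton]
    constructor
    · rintro ⟨n', Q, h2, _, h4⟩ y hy
      have h5 := bits_injective h2
      rw [Prod.mk.injEq] at h5
      rw [h5.2] at hy
      exact (h4 y hy).1
    · intro h2
      exact ⟨n, t.2, rfl, (h t ht).1, fun z hz => ⟨h2 z hz, (h t ht).2 z hz⟩⟩
  simp only [Function.comp_apply]
  by_cases h2 : ∀ y ∈ t.2, y ∈ S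
  · rw [if_pos h2, if_pos (h1.2 h2)]
  · rw [if_neg h2, if_neg (fun h3 => h2 (h1.1 h3))]

/-- **Unbounded width.** If an `NP`-hard set reduces to a set `S` by a threshold reduction of
polynomially bounded weight and of width `c`, and `(census S (p n) + 1) ^ c n` is polynomially
bounded for every polynomial `p`, then `P = NP`. -/
theorem p_eq_np_of_census (A S : Set (List Bool)) (hA : NPHard A) (d c : ℕ → ℕ)
    (hd : ∃ q : Polynomial ℕ, ∀ n, d n ≤ q.eval n)
    (hc : ∀ p : Polynomial ℕ, ∃ q : Polynomial ℕ, ∀ n, (census S (p.eval n) + 1) ^ c n ≤ q.eval n)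
    (hred : ThresholdReduces A S d c) : ∀ L : Set (List Bool), InNP L → InP L := by
  classical
  obtain ⟨r, hr, hr2⟩ := hred
  have hrp : Poly r := poly_of_polyTime_bits hr
  obtain ⟨P0, hP0⟩ := hrp.sz_le
  set P : Polynomial ℕ := P0.comp (Polynomial.C 4 * Polynomial.X + 1) with hP
  have hlen : ∀ x : List Bool, ∀ t ∈ r x, ∀ y ∈ t.2, y.length ≤ P.eval x.length := by
    intro x t ht y hy
    have e1 : sz t < sz (r x) := sz_le_of_mem ht
    have e2 : sz y < sz t.2 := sz_le_of_mem hy
    have e3 : sz t.2 < sz t := by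
      have g1 : sz t = sz t.1 + sz t.2 + 1 := sz_pair t.1 t.2
      have g2 := sz_pos t.1
      omega
    have e4 : y.length < sz y := length_lt_sz y
    have e5 := hP0 x
    have e6 : P0.eval (sz x) ≤ P.eval x.length := by
      rw [hP, Polynomial.eval_comp]
      refine eval_mono P0 ?_
      have := sz_listBool_le x
      simp only [Polynomial.eval_add, Polynomial.eval_mul, Polynomial.eval_C, Polynomial.eval_one,
        Polynomial.eval_X]
      omega
    omega
  obtain ⟨q, hq⟩ := hc P
  refine p_eq_np_of_sparse A (Sub S c P) hA (sub_sparse S c P q hq) d 1 hd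
    ⟨fun x => (r x).map (fun t => (t.1, [bits (List.replicate x.length true, t.2)])), ?_,
      fun x => ⟨?_, ?_, ?_⟩⟩
  · refine polyTime_bits ?_
    have h1 : Poly (fun x : List Bool => List.replicate x.length true) := by
      have h2 : Poly (fun x : List Bool => x.map (fun _ => true)) :=
        NPC.Poly.map (l := fun x : List Bool => x) (F := fun _ _ => true) NPC.Poly.id
          (NPC.Poly.const true)
      exact h2.congr fun x => by simp
    refine NPC.Poly.map (l := r)
      (F := fun x t => (t.1, [bits (List.replicate x.length true, t.2)])) hrp ?_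
    refine NPC.Poly.pair (NPC.Poly.fst (NPC.Poly.snd NPC.Poly.id)) (NPC.Poly.cons ?_
      (NPC.Poly.const []))
    exact (Pool.Agent.H579R2.Spt.bits_poly (α := List Bool × List (List Bool))).comp
      (NPC.Poly.pair (h1.comp (NPC.Poly.fst NPC.Poly.id))
        (NPC.Poly.snd (NPC.Poly.snd NPC.Poly.id)))
  · intro t ht
    obtain ⟨t', _, rfl⟩ := List.mem_map.1 ht
    simp
  · have h1 := (hr2 x).2.1
    have h2 : weight ((r x).map (fun t => (t.1, [bits (List.replicate x.length true, t.2)]))) =
        weight (r x) := by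
      unfold weight
      rw [List.map_map]
      rfl
    rw [h2]
    exact h1
  · rw [value_sub S c P x.length (r x) (fun t ht => ⟨(hr2 x).1 t ht, hlen x t ht⟩)]
    exact (hr2 x).2.2

end Pool.Agent.H579R6
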